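import Mathlib
import Pool.Agent.H34.Rud.Block

set_option autoImplicit false

/-!
# The chain of three cubics

`120 n = t ^ 3 - 49 t + 120 = (t - 3) (t - 5) (t + 8)`, `120 (n - 1) = t (t - 7) (t + 7)`,
`120 (n - 2) = (t + 3) (t + 5) (t - 8)`, for `t = 83` modulo `120`.
-/

namespace Pool.Agent.H34.Rud6

open Finset Pool.Agent.H34

/-- A root: `120 (n - i) = s ^ 3 + a s ^ 2 + c s`, `s = t - ρ`. -/
structure Root where
  ρ : ℤ
  i : ℤ
  a : ℤ
  c : ℤ

/-- The nine roots. -/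
def roots : List Root :=
  [⟨-8, 0, -24, 143⟩, ⟨3, 0, 9, -22⟩, ⟨5, 0, 15, 26⟩,
   ⟨-7, 1, -21, 98⟩, ⟨0, 1, 0, -49⟩, ⟨7, 1, 21, 98⟩,
   ⟨-5, 2, -15, 26⟩, ⟨-3, 2, -9, -22⟩, ⟨8, 2, 24, 143⟩]

theorem roots_cases {P : Root → Prop} (h0 : P ⟨-8, 0, -24, 143⟩) (h1 : P ⟨3, 0, 9, -22⟩)
    (h2 : P ⟨5, 0, 15, 26⟩) (h3 : P ⟨-7, 1, -21, 98⟩) (h4 : P ⟨0, 1, 0, -49⟩)
    (h5 : P ⟨7, 1, 21, 98⟩) (h6 : P ⟨-5, 2, -15, 26⟩) (h7 : P ⟨-3, 2, -9, -22⟩)
    (h8 : P ⟨8, 2, 24, 143⟩) : ∀ R ∈ roots, P R := by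
  intro R hR
  simp only [roots, List.mem_cons, List.not_mem_nil, or_false] at hR
  rcases hR with rfl | rfl | rfl | rfl | rfl | rfl | rfl | rfl | rfl
  · exact h0
  · exact h1
  · exact h2
  · exact h3
  · exact h4
  · exact h5
  · exact h6
  · exact h7
  · exact h8

theorem root_id (R : Root) (hR : R ∈ roots) (t : ℤ) : t ^ 3 - 49 * t + 120 - 120 * R.i =
    (t - R.ρ) ^ 3 + R.a * (t - R.ρ) ^ 2 + R.c * (t - R.ρ) := by
  revert R
  apply roots_cases <;> ring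

theorem root_bd (R : Root) (hR : R ∈ roots) : (R.ρ ≠ 0 → R.a ≠ 0) ∧ |R.a| ≤ 650 ∧ R.c ≠ 0 ∧
    |R.c| ≤ 143 ∧ (R.i = 0 ∨ R.i = 1 ∨ R.i = 2) ∧ -8 ≤ R.ρ ∧ R.ρ ≤ 8 := by
  revert R
  apply roots_cases <;> norm_num

/-- `t` is bad for the root `R` and the prime `l`. -/
def PB (R : Root) (l : ℕ) (t : ℤ) : Prop :=
  (l : ℤ) ∣ t - R.ρ ∧ ∃ N : ℤ, t ^ 3 - 49 * t + 120 - 120 * R.i = 120 * (l * N) ∧
    ∀ j, 1 ≤ j → 2 * (N % (l : ℤ) ^ j) ≤ (l : ℤ) ^ j

noncomputable instance (R : Root) (l : ℕ) (t : ℤ) : Decidable (PB R l t) := Classical.dec _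

theorem dvd_cubic (t : ℤ) (ht : t % 120 = 83) : (120 : ℤ) ∣ t ^ 3 - 49 * t + 120 := by
  obtain ⟨a, ha⟩ : ∃ a, t = 120 * a + 83 := ⟨t / 120, by omega⟩
  refine ⟨(3 * a + 2) * (20 * a + 13) * (240 * a + 182), ?_⟩
  rw [ha]; ring

theorem tt_mod (W x : ℕ) (T : ℤ) (hT : T % 120 = 83) : (120 * (W : ℤ) * x + T) % 120 = 83 := by
  have : 120 * (W : ℤ) * x + T = T + 120 * ((W : ℤ) * x) := by ring
  rw [this, Int.add_mul_emod_self_left, hT]

theorem cop120 (l : ℕ) (hl : l.Prime) (h5 : 5 < l) : IsCoprime (l : ℤ) 120 := by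
  have h := Rud.cop600 l hl h5
  have e : (600 : ℤ) = 120 * 5 := by norm_num
  rw [e] at h
  exact h.of_mul_right_left

/-- The residue class of the values divisible by `d`. -/
theorem same_class (W d x y : ℕ) (T : ℤ) (hd : IsCoprime (d : ℤ) (120 * (W : ℤ)))
    (hx : (d : ℤ) ∣ 120 * (W : ℤ) * x + T) (hy : (d : ℤ) ∣ 120 * (W : ℤ) * y + T) :
    x % d = y % d := by
  have h1 : (d : ℤ) ∣ 120 * (W : ℤ) * ((y : ℤ) - x) := by
    have := dvd_sub hy hx
    have e : 120 * (W : ℤ) * y + T - (120 * (W : ℤ) * x + T) = 120 * (W : ℤ) * ((y : ℤ) - x) := by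
      ring
    rwa [e] at this
  have h2 : (d : ℤ) ∣ (y : ℤ) - x := hd.dvd_of_dvd_mul_left h1
  have h3 : (x : ℤ) % d = (y : ℤ) % d := Int.modEq_iff_dvd.mpr h2
  exact_mod_cast h3

theorem coprime_W (W l : ℕ) (hl : l.Prime) (hlW : ¬ l ∣ W) (h5 : 5 < l) :
    IsCoprime (l : ℤ) (120 * (W : ℤ)) := by
  apply IsCoprime.mul_right (cop120 l hl h5)
  rw [Prime.coprime_iff_not_dvd (Nat.prime_iff_prime_int.mp hl)]
  intro h
  exact hlW (by exact_mod_cast h)

/-- The quotient `(n - i) / l` as a polynomial of the block index. -/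
theorem nn_form (R : Root) (W l c n0 : ℤ)
    (hn0 : 120 * n0 = l ^ 2 * c ^ 3 + R.a * l * c ^ 2 + R.c * c) (y : ℕ) (N : ℤ)
    (hN : 120 * N = l ^ 2 * (c + 120 * W * y) ^ 3 + R.a * l * (c + 120 * W * y) ^ 2 +
      R.c * (c + 120 * W * y)) :
    N = n0 + (W * (l * (3 * l * c ^ 2 + 2 * R.a * c) + R.c)) * y +
      l * (W * (120 * W) * (3 * l * c + R.a)) * y ^ 2 +
      l ^ 2 * (W * (120 * W) ^ 2) * y ^ 3 := by
  have : 120 * N = 120 * (n0 + (W * (l * (3 * l * c ^ 2 + 2 * R.a * c) + R.c)) * y +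
      l * (W * (120 * W) * (3 * l * c + R.a)) * y ^ 2 +
      l ^ 2 * (W * (120 * W) ^ 2) * y ^ 3) := by
    linear_combination hN - hn0
  linarith

/-- The bad values of `x` embed in the bad values of the block index. -/
theorem block6 (W : ℕ) (T : ℤ) (hT : T % 120 = 83) (R : Root) (hR : R ∈ roots) (l : ℕ)
    (hl : l.Prime) (hlW : ¬ l ∣ W) (hl6 : 650 < l) (Z : ℕ) :
    ∃ n0 n1 k2 k3 : ℤ, ¬ (l : ℤ) ∣ n1 ∧ (R.ρ ≠ 0 → ¬ (l : ℤ) ∣ k2) ∧ ¬ (l : ℤ) ∣ k3 ∧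
    ∀ D : Finset ℕ, (∀ j ∈ D, 1 ≤ j) →
      ((range Z).filter (fun x : ℕ => PB R l (120 * W * x + T))).card ≤
        ((range (Z / l + 1)).filter (fun y => ∀ j ∈ D,
          2 * (Rud.NN l n0 n1 k2 k3 y % (l : ℤ) ^ j) ≤ (l : ℤ) ^ j)).card := by
  have hlp := Nat.prime_iff_prime_int.mp hl
  have hl0 : (l : ℤ) ≠ 0 := by exact_mod_cast hl.ne_zero
  have hlW' : ¬ (l : ℤ) ∣ (W : ℤ) := fun h => hlW (by exact_mod_cast h)
  have hcop := cop120 l hl (by omega)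
  have hl120 : ¬ (l : ℤ) ∣ 120 := Rud.not_dvd_small l 120 (by norm_num) (by norm_num) hl6
  have hcopW : IsCoprime (l : ℤ) (120 * (W : ℤ)) := coprime_W W l hl hlW (by omega)
  have h120W : ¬ (l : ℤ) ∣ 120 * (W : ℤ) := fun h => by
    rcases hlp.dvd_or_dvd h with h | h
    · exact hl120 h
    · exact hlW' h
  obtain ⟨ha0, ha1, hc0, hc1, -⟩ := root_bd R hR
  have hlc := Rud.not_dvd_small l R.c hc0 (hc1.trans (by norm_num)) hl6
  by_cases hex : ∃ x ∈ range Z, (l : ℤ) ∣ 120 * W * (x : ℕ) + T - R.ρ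
  · obtain ⟨x1, hx1, hd1⟩ := hex
    set x0 := x1 % l with hx0
    have hd0 : (l : ℤ) ∣ 120 * W * (x0 : ℕ) + T - R.ρ := by
      have e1 : ((l : ℤ)) * ((x1 / l : ℕ) : ℤ) + (x0 : ℤ) = x1 := by
        exact_mod_cast Nat.div_add_mod x1 l
      have e2 : 120 * (W : ℤ) * (x0 : ℕ) + T - R.ρ =
          (120 * (W : ℤ) * (x1 : ℕ) + T - R.ρ) - l * (120 * W * ((x1 / l : ℕ) : ℤ)) := by
        rw [← e1]; ring
      rw [e2]
      exact dvd_sub hd1 (Dvd.intro _ rfl)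
    obtain ⟨c, hc⟩ := hd0
    have ht0 := tt_mod W x0 T hT
    obtain ⟨n, hn⟩ := dvd_cubic _ ht0
    have hid := root_id R hR (120 * W * (x0 : ℕ) + T)
    rw [hn, hc] at hid
    have h120 : (120 : ℤ) ∣ (l : ℤ) ^ 2 * c ^ 3 + R.a * l * c ^ 2 + R.c * c := by
      apply hcop.symm.dvd_of_dvd_mul_left
      exact ⟨n - R.i, by linear_combination (-1 : ℤ) * hid⟩
    obtain ⟨n0, hn0⟩ := h120
    refine ⟨n0, W * (l * (3 * l * c ^ 2 + 2 * R.a * c) + R.c), W * (120 * W) * (3 * l * c + R.a),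
      W * (120 * W) ^ 2, ?_, ?_, ?_, ?_⟩
    · intro h
      rcases hlp.dvd_or_dvd h with h | h
      · exact hlW' h
      · exact hlc ((Int.dvd_add_right (Dvd.intro _ rfl)).mp h)
    · intro hρ h
      have hla := Rud.not_dvd_small l R.a (ha0 hρ) ha1 hl6
      rcases hlp.dvd_or_dvd h with h | h
      · rcases hlp.dvd_or_dvd h with h | h
        · exact hlW' h
        · exact h120W h
      · have h1 : (l : ℤ) ∣ 3 * l * c := ⟨3 * c, by ring⟩
        exact hla ((Int.dvd_add_right h1).mp h)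
    · intro h
      rcases hlp.dvd_or_dvd h with h | h
      · exact hlW' h
      · exact h120W (hlp.dvd_of_dvd_pow h)
    · intro D hD
      have hclass : ∀ x : ℕ, PB R l (120 * W * x + T) → x % l = x0 := by
        intro x hx
        have h1 : (l : ℤ) ∣ 120 * (W : ℤ) * x + (T - R.ρ) := by
          have := hx.1
          rwa [add_sub_assoc] at this
        have h2 : (l : ℤ) ∣ 120 * (W : ℤ) * x1 + (T - R.ρ) := by
          rwa [add_sub_assoc] at hd1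
        exact same_class W l x x1 _ hcopW h1 h2
      apply Finset.card_le_card_of_injOn (fun x => x / l)
      · intro x hx
        rw [Finset.mem_coe, mem_filter, mem_range] at hx
        obtain ⟨hxZ, hPB⟩ := hx
        have hxc := hclass x hPB
        rw [Finset.mem_coe, mem_filter, mem_range]
        refine ⟨Nat.lt_succ_of_le (Nat.div_le_div_right hxZ.le), ?_⟩
        obtain ⟨-, N, hN1, hN2⟩ := hPB
        have hxx : (x : ℤ) = x0 + l * ((x / l : ℕ) : ℤ) := by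
          have := Nat.div_add_mod x l
          rw [hxc] at this
          have h2 : ((l * (x / l) + x0 : ℕ) : ℤ) = (x : ℤ) := by exact_mod_cast this
          push_cast at h2 ⊢
          linarith
        have hs : 120 * (W : ℤ) * x + T - R.ρ = l * (c + 120 * W * ((x / l : ℕ) : ℤ)) := by
          rw [hxx]
          linear_combination hc
        have hid2 := root_id R hR (120 * W * (x : ℕ) + T)
        rw [hN1, hs] at hid2
        have hN3 : 120 * N = (l : ℤ) ^ 2 * (c + 120 * W * ((x / l : ℕ) : ℤ)) ^ 3 +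
            R.a * l * (c + 120 * W * ((x / l : ℕ) : ℤ)) ^ 2 +
            R.c * (c + 120 * W * ((x / l : ℕ) : ℤ)) := by
          have : (l : ℤ) * (120 * N) = l * ((l : ℤ) ^ 2 * (c + 120 * W * ((x / l : ℕ) : ℤ)) ^ 3 +
            R.a * l * (c + 120 * W * ((x / l : ℕ) : ℤ)) ^ 2 +
            R.c * (c + 120 * W * ((x / l : ℕ) : ℤ))) := by
            linear_combination hid2
          exact mul_left_cancel₀ hl0 this
        have hN4 := nn_form R W l c n0 hn0.symm (x / l) N hN3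
        intro j hj
        unfold Rud.NN
        rw [← hN4]
        exact hN2 j (hD j hj)
      · intro x hx y hy hxy
        rw [Finset.mem_coe, mem_filter] at hx hy
        simp only at hxy
        rw [← Nat.div_add_mod x l, ← Nat.div_add_mod y l, hxy, hclass x hx.2, hclass y hy.2]
  · push Not at hex
    have h1 : ¬ (l : ℤ) ∣ 1 := by
      intro h
      have := Int.le_of_dvd one_pos h
      omega
    refine ⟨0, 1, 1, 1, h1, fun _ => h1, h1, fun D _ => ?_⟩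
    have : (range Z).filter (fun x : ℕ => PB R l (120 * W * x + T)) = ∅ := by
      rw [Finset.filter_eq_empty_iff]
      intro x hx hP
      exact hex x hx hP.1
    rw [this, card_empty]
    exact Nat.zero_le _

theorem cntle6 (W : ℕ) (T : ℤ) (R : Root) (l : ℕ) (hl : l.Prime) (hlW : ¬ l ∣ W) (hl6 : 650 < l)
    (Z : ℕ) : ((range Z).filter (fun x : ℕ => PB R l (120 * W * x + T))).card ≤ Z / l + 1 := by
  apply Rud.card_class Z l _ (Finset.filter_subset _ _)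
  intro x hx y hy
  rw [mem_filter] at hx hy
  have h1 := hx.2.1
  have h2 := hy.2.1
  rw [add_sub_assoc] at h1 h2
  exact same_class W l x y _ (coprime_W W l hl hlW (by omega)) h1 h2

/-- The residues of the second digits. -/
theorem res_all : ∀ R ∈ roots, ∀ v < 120, Nat.Coprime v 120 →
    (R.ρ = -8 → v % 5 = 1 ∨ v % 5 = 4) → (R.ρ = 5 → v % 5 = 2 ∨ v % 5 = 3) →
    (60 ≤ ((83 - R.ρ) ^ 2 * (83 - R.ρ + R.a) * (v : ℤ) ^ 2) % 120 ∧
      (((83 - R.ρ) ^ 2 * (83 - R.ρ + R.a) * (v : ℤ) ^ 2) % 120 = 60 → 0 < R.c)) := by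
  have h : ∀ R ∈ [((-8 : ℤ), (-24 : ℤ), (143 : ℤ)), (3, 9, -22), (5, 15, 26), (-7, -21, 98),
      (0, 0, -49), (7, 21, 98), (-5, -15, 26), (-3, -9, -22), (8, 24, 143)],
      ∀ v < 120, Nat.Coprime v 120 →
      (R.1 = -8 → v % 5 = 1 ∨ v % 5 = 4) → (R.1 = 5 → v % 5 = 2 ∨ v % 5 = 3) →
      (60 ≤ ((83 - R.1) ^ 2 * (83 - R.1 + R.2.1) * (v : ℤ) ^ 2) % 120 ∧
        (((83 - R.1) ^ 2 * (83 - R.1 + R.2.1) * (v : ℤ) ^ 2) % 120 = 60 → 0 < R.2.2)) := by
    decide +kernel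
  intro R hR v hv hc h1 h2
  have := h (R.ρ, R.a, R.c) (by
    simp only [roots, List.mem_cons, List.not_mem_nil, or_false] at hR
    rcases hR with rfl | rfl | rfl | rfl | rfl | rfl | rfl | rfl | rfl <;> simp) v hv hc h1 h2
  exact this

/-- The residue of `m ^ 2 (l m + a)` modulo `120`. -/
theorem res_mod (R : Root) (hR : R ∈ roots) (l m t : ℤ) (hl : IsCoprime l 120)
    (ht : t % 120 = 83) (h : t - R.ρ = l * m)
    (h8 : R.ρ = -8 → l % 5 = 1 ∨ l % 5 = 4) (h5 : R.ρ = 5 → l % 5 = 2 ∨ l % 5 = 3) :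
    60 ≤ (m ^ 2 * (l * m + R.a)) % 120 ∧
      ((m ^ 2 * (l * m + R.a)) % 120 = 60 → 0 < R.c) := by
  obtain ⟨w, z, hw⟩ := hl
  set v := (w % 120).toNat with hv
  have hv0 : 0 ≤ w % 120 := Int.emod_nonneg _ (by norm_num)
  have hv1 : w % 120 < 120 := Int.emod_lt_of_pos _ (by norm_num)
  have hvz : (v : ℤ) = w % 120 := by rw [hv]; omega
  have hvm : (v : ℤ) ≡ w [ZMOD 120] := by rw [hvz]; exact Int.mod_modEq _ _
  have hlw : l * w ≡ 1 [ZMOD 120] := by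
    rw [Int.modEq_iff_dvd]
    exact ⟨z, by linarith⟩
  have hlv : l * v ≡ 1 [ZMOD 120] := (Int.ModEq.mul_left l hvm).trans hlw
  have hcop : Nat.Coprime v 120 := by
    have h1 : IsCoprime (v : ℤ) ((120 : ℕ) : ℤ) := by
      rw [Int.modEq_iff_dvd] at hlv
      obtain ⟨u, hu⟩ := hlv
      exact ⟨l, u, by push_cast; linarith⟩
    exact Int.isCoprime_iff_gcd_eq_one.mp h1 |> fun h => by
      rwa [Int.gcd_natCast_natCast] at h
  have htm : t ≡ 83 [ZMOD 120] := by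
    show t % 120 = 83 % 120
    rw [ht]; rfl
  have hs : l * m ≡ 83 - R.ρ [ZMOD 120] := by
    rw [← h]
    exact Int.ModEq.sub_right _ htm
  have hm : m ≡ (83 - R.ρ) * v [ZMOD 120] := by
    calc m = 1 * m := (one_mul m).symm
      _ ≡ (l * v) * m [ZMOD 120] := (Int.ModEq.mul_right m hlv).symm
      _ = (l * m) * v := by ring
      _ ≡ (83 - R.ρ) * v [ZMOD 120] := Int.ModEq.mul_right _ hs
  have hU : m ^ 2 * (l * m + R.a) ≡ (83 - R.ρ) ^ 2 * (83 - R.ρ + R.a) * (v : ℤ) ^ 2 [ZMOD 120] := by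
    calc m ^ 2 * (l * m + R.a) ≡ ((83 - R.ρ) * v) ^ 2 * (83 - R.ρ + R.a) [ZMOD 120] :=
          Int.ModEq.mul (Int.ModEq.pow 2 hm) (Int.ModEq.add_right _ hs)
      _ = (83 - R.ρ) ^ 2 * (83 - R.ρ + R.a) * (v : ℤ) ^ 2 := by ring
  -- `v` modulo `5`
  have hlv5 : (l * v) % 5 = 1 := by
    have h1 : l * v ≡ 1 [ZMOD 5] := hlv.of_dvd (by norm_num)
    exact h1
  have hv5 : (l % 5) * ((v : ℤ) % 5) % 5 = 1 := by
    rw [← Int.mul_emod]; exact hlv5
  have hvr : (v : ℤ) % 5 = 0 ∨ (v : ℤ) % 5 = 1 ∨ (v : ℤ) % 5 = 2 ∨ (v : ℤ) % 5 = 3 ∨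
      (v : ℤ) % 5 = 4 := by omega
  have hr := res_all R hR v (by omega) hcop
    (by
      intro h0
      rcases h8 h0 with h1 | h1 <;> rw [h1] at hv5 <;> omega)
    (by
      intro h0
      rcases h5 h0 with h1 | h1 <;> rw [h1] at hv5 <;> omega)
  have hU' : (m ^ 2 * (l * m + R.a)) % 120 =
    ((83 - R.ρ) ^ 2 * (83 - R.ρ + R.a) * (v : ℤ) ^ 2) % 120 := hU
  rw [hU']
  exact hr

/-- **The deterministic second digit.** -/
theorem det_digit (R : Root) (hR : R ∈ roots) (l m t N : ℤ) (hl : IsCoprime l 120) (hl0 : 0 < l)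
    (ht : t % 120 = 83) (h : t - R.ρ = l * m)
    (h8 : R.ρ = -8 → l % 5 = 1 ∨ l % 5 = 4) (h5 : R.ρ = 5 → l % 5 = 2 ∨ l % 5 = 3)
    (hm0 : 0 < m) (hm : 143 * m < l)
    (hN : 120 * N = l ^ 2 * m ^ 3 + R.a * l * m ^ 2 + R.c * m) : l < 2 * (N % l) := by
  obtain ⟨h1, h2⟩ := res_mod R hR l m t hl ht h h8 h5
  obtain ⟨-, -, -, hc, -⟩ := root_bd R hR
  set U := m ^ 2 * (l * m + R.a) with hU
  have h3 := Int.mul_ediv_add_emod U 120
  set u := U / 120 with hu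
  set v := U % 120 with hv
  have hv119 : v ≤ 119 := by
    have : v < 120 := Int.emod_lt_of_pos _ (by norm_num)
    omega
  have h4 : 120 * (N - l * u) = l * v + R.c * m := by
    have : 120 * N = l * U + R.c * m := by rw [hN, hU]; ring
    rw [mul_sub, this, ← h3]
    ring
  have hc' := abs_le.mp hc
  have h5' : R.c * m ≤ 143 * m := mul_le_mul_of_nonneg_right hc'.2 hm0.le
  have h6 : -143 * m ≤ R.c * m := mul_le_mul_of_nonneg_right (by linarith [hc'.1]) hm0.le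
  have h7 : 60 * l ≤ l * v := by nlinarith
  have h8' : l * v ≤ 119 * l := by nlinarith
  have h9 : N % l = N - l * u := by
    have e1 : N = (N - l * u) + l * u := by ring
    conv_lhs => rw [e1]
    rw [Int.add_mul_emod_self_left]
    apply Int.emod_eq_of_lt
    · nlinarith
    · nlinarith
  rw [h9]
  rcases eq_or_lt_of_le h1 with h10 | h10
  · have h11 : 0 < R.c := h2 h10.symm
    have h12 : 0 < R.c * m := mul_pos h11 hm0
    nlinarith
  · have h11 : 61 ≤ v := by omega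
    nlinarith

/-- **The deterministic range.** -/
theorem nobad6 (R : Root) (hR : R ∈ roots) (l : ℕ) (hl : l.Prime) (hl6 : 650 < l) (t : ℤ)
    (ht : t % 120 = 83) (ht0 : 8 < t) (h : 200 * t ≤ (l : ℤ) ^ 2)
    (h8 : R.ρ = -8 → l % 5 = 1 ∨ l % 5 = 4) (h5 : R.ρ = 5 → l % 5 = 2 ∨ l % 5 = 3) :
    ¬ PB R l t := by
  rintro ⟨⟨m, hm⟩, N, hN1, hN2⟩
  obtain ⟨-, -, -, -, -, hρ0, hρ⟩ := root_bd R hR
  have hl0 : (0 : ℤ) < l := by exact_mod_cast hl.pos
  have hm0 : 0 < m := by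
    have : 0 < (l : ℤ) * m := by rw [← hm]; linarith
    exact (mul_pos_iff_of_pos_left hl0).mp this
  have hml : 143 * m < (l : ℤ) := by
    have h1 : 143 * ((l : ℤ) * m) < (l : ℤ) ^ 2 := by rw [← hm]; omega
    have h2 : (l : ℤ) * (143 * m) < l * l := by nlinarith
    exact lt_of_mul_lt_mul_left h2 hl0.le
  have hid := root_id R hR t
  rw [hN1, hm] at hid
  have hN3 : 120 * N = (l : ℤ) ^ 2 * m ^ 3 + R.a * l * m ^ 2 + R.c * m := by
    have : (l : ℤ) * (120 * N) = l * ((l : ℤ) ^ 2 * m ^ 3 + R.a * l * m ^ 2 + R.c * m) := by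
      linear_combination hid
    exact mul_left_cancel₀ hl0.ne' this
  have h1 := det_digit R hR l m t N (cop120 l hl (by omega)) hl0 ht hm
    (fun e => by have := h8 e; omega) (fun e => by have := h5 e; omega) hm0 hml hN3
  have h2 := hN2 1 le_rfl
  rw [pow_one] at h2
  linarith

end Pool.Agent.H34.Rud6
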