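import Mathlib
import Pool.Agent.H34.Rud6.Chain
import Pool.Agent.H34.Rud6.Arith
import Pool.Agent.H34.Rud.GoodX

set_option autoImplicit false

/-!
# Final count from the union bound
-/

namespace Pool.Agent.H34.Rud6

open Finset Real Pool.Agent.H34

/-- The value of `n` at `t = 120 a + 83`. -/
def na (a : ℕ) : ℕ := (3 * a + 2) * (20 * a + 13) * (240 * a + 182)

/-- The shift: `n + mm q` is divisible by `a + q + 2`. -/
def mm (q : ℕ) : ℕ := (3 * q + 4) * (20 * q + 27) * (240 * q + 298)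

theorem na_t (a : ℕ) : (120 * (na a : ℤ)) =
    (120 * (a : ℤ) + 83) ^ 3 - 49 * (120 * (a : ℤ) + 83) + 120 := by
  unfold na
  push_cast
  ring

theorem dvd_na_mm (q a : ℕ) : a + (q + 2) ∣ na a + mm q := by
  have : ((a + (q + 2) : ℕ) : ℤ) ∣ ((na a + mm q : ℕ) : ℤ) := by
    unfold na mm
    push_cast
    refine ⟨14400 * ((a : ℤ) ^ 2 - a * (q + 2) + (q + 2) ^ 2) + 29880 * (a - (q + 2)) + 20618, ?_⟩
    ring
  exact_mod_cast this

theorem exists_root (l : ℕ) (hl : l.Prime) (hl6 : 650 < l) (a i : ℕ) (hi : i < 3)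
    (h : na a % l = i) : ∃ R ∈ roots, R.i = i ∧ (l : ℤ) ∣ (120 * (a : ℤ) + 83) - R.ρ := by
  have hlp := Nat.prime_iff_prime_int.mp hl
  have h1 : (l : ℤ) ∣ (na a : ℤ) - i := by
    have : i ≡ na a [MOD l] := by
      unfold Nat.ModEq
      rw [h, Nat.mod_eq_of_lt (by omega)]
    exact (Nat.modEq_iff_dvd.mp this)
  have h2 : (l : ℤ) ∣ 120 * (na a : ℤ) - 120 * i := by
    have : 120 * (na a : ℤ) - 120 * i = 120 * ((na a : ℤ) - i) := by ring
    rw [this]
    exact Dvd.dvd.mul_left h1 _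
  rw [na_t] at h2
  interval_cases i
  · have h3 : (l : ℤ) ∣ ((120 * (a : ℤ) + 83) - (-8)) * ((120 * (a : ℤ) + 83) - 3) *
        ((120 * (a : ℤ) + 83) - 5) := by
      convert h2 using 1
      push_cast
      ring
    rcases hlp.dvd_or_dvd h3 with h3 | h3
    · rcases hlp.dvd_or_dvd h3 with h3 | h3
      · exact ⟨⟨-8, 0, -24, 143⟩, by simp [roots], rfl, h3⟩
      · exact ⟨⟨3, 0, 9, -22⟩, by simp [roots], rfl, h3⟩
    · exact ⟨⟨5, 0, 15, 26⟩, by simp [roots], rfl, h3⟩
  · have h3 : (l : ℤ) ∣ ((120 * (a : ℤ) + 83) - (-7)) * ((120 * (a : ℤ) + 83) - 0) *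
        ((120 * (a : ℤ) + 83) - 7) := by
      convert h2 using 1
      push_cast
      ring
    rcases hlp.dvd_or_dvd h3 with h3 | h3
    · rcases hlp.dvd_or_dvd h3 with h3 | h3
      · exact ⟨⟨-7, 1, -21, 98⟩, by simp [roots], rfl, h3⟩
      · exact ⟨⟨0, 1, 0, -49⟩, by simp [roots], rfl, h3⟩
    · exact ⟨⟨7, 1, 21, 98⟩, by simp [roots], rfl, h3⟩
  · have h3 : (l : ℤ) ∣ ((120 * (a : ℤ) + 83) - (-5)) * ((120 * (a : ℤ) + 83) - (-3)) *
        ((120 * (a : ℤ) + 83) - 8) := by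
      convert h2 using 1
      push_cast
      ring
    rcases hlp.dvd_or_dvd h3 with h3 | h3
    · rcases hlp.dvd_or_dvd h3 with h3 | h3
      · exact ⟨⟨-5, 2, -15, 26⟩, by simp [roots], rfl, h3⟩
      · exact ⟨⟨-3, 2, -9, -22⟩, by simp [roots], rfl, h3⟩
    · exact ⟨⟨8, 2, 24, 143⟩, by simp [roots], rfl, h3⟩

theorem good_large (q a l : ℕ) (hl : l.Prime) (hl6 : 650 < l) (hlq : 2 * q + 8 ≤ l)
    (hPB : ∀ R ∈ roots, ¬ PB R l (120 * (a : ℤ) + 83))
    (hsq : ∀ R ∈ roots, ¬ (l : ℤ) ^ 2 ∣ (120 * (a : ℤ) + 83) - R.ρ) (h : na a % l < 3) :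
    3 ≤ na a % l ^ 2 ∧ ∃ j, 2 ≤ j ∧ l ^ j + 2 * 3 ≤ 2 * (na a % l ^ j) ∧
      na a % l ^ j + q < l ^ j := by
  obtain ⟨R, hR, hRi, hd⟩ := exists_root l hl hl6 a _ h rfl
  set i := na a % l with hi
  set N := na a / l with hN
  have hn : na a = i + l * N := by
    have := Nat.div_add_mod (na a) l
    rw [hi, hN]
    linarith
  have hlp := Nat.prime_iff_prime_int.mp hl
  have hid := root_id R hR (120 * (a : ℤ) + 83)
  have hnz : (120 * (a : ℤ) + 83) ^ 3 - 49 * (120 * (a : ℤ) + 83) + 120 -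
      120 * R.i = 120 * (l * (N : ℤ)) := by
    rw [← na_t, hRi]
    have : (na a : ℤ) = i + l * N := by exact_mod_cast hn
    rw [this]
    ring
  constructor
  · by_contra hcon
    push Not at hcon
    have h1 := Rud.mod_succ (na a) i N l 1 hn (by omega)
    rw [pow_one] at h1
    rw [h1] at hcon
    have h2 : N % l = 0 := by
      by_contra h3
      have h4 : 1 ≤ N % l := Nat.pos_of_ne_zero h3
      have h5 : l * 1 ≤ l * (N % l) := Nat.mul_le_mul_left _ h4
      omega
    obtain ⟨M, hM⟩ := Nat.dvd_of_mod_eq_zero h2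
    rw [hnz, hM] at hid
    obtain ⟨-, -, hc0, hc1, -⟩ := root_bd R hR
    have hlc := Rud.not_dvd_small l R.c hc0 (hc1.trans (by norm_num)) hl6
    set s := (120 * (a : ℤ) + 83) - R.ρ with hs
    apply hsq R hR
    have h3 : (l : ℤ) ^ 2 ∣ s * (s ^ 2 + R.a * s + R.c) := by
      refine ⟨120 * M, ?_⟩
      push_cast at hid
      linear_combination (-1 : ℤ) * hid
    have h4 : IsCoprime ((l : ℤ) ^ 2) (s ^ 2 + R.a * s + R.c) := by
      apply IsCoprime.pow_left
      rw [Prime.coprime_iff_not_dvd hlp]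
      intro h5
      have h6 : (l : ℤ) ∣ s ^ 2 + R.a * s := by
        have : s ^ 2 + R.a * s = s * (s + R.a) := by ring
        rw [this]
        exact Dvd.dvd.mul_right hd _
      exact hlc ((Int.dvd_add_right h6).mp h5)
    exact h4.dvd_of_dvd_mul_right h3
  · have h1 := hPB R hR
    unfold PB at h1
    push Not at h1
    obtain ⟨j, hj1, hj2⟩ := h1 hd N hnz
    have hj3 : l ^ j < 2 * (N % l ^ j) := by exact_mod_cast hj2
    refine ⟨j + 1, by omega, ?_⟩
    rw [Rud.mod_succ (na a) i N l j hn (by omega)]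
    have h2 := Nat.mod_lt N (pow_pos hl.pos j)
    have h4 : l ^ j + 1 ≤ 2 * (N % l ^ j) := hj3
    have h5 : l * (l ^ j + 1) ≤ l * (2 * (N % l ^ j)) := Nat.mul_le_mul_left _ h4
    have h6 : N % l ^ j + 1 ≤ l ^ j := h2
    have h7 : l * (N % l ^ j + 1) ≤ l * l ^ j := Nat.mul_le_mul_left _ h6
    have e1 : l ^ (j + 1) = l * l ^ j := by rw [pow_succ, mul_comm]
    have e2 : l * (l ^ j + 1) = l * l ^ j + l := by ring
    have e3 : l * (N % l ^ j + 1) = l * (N % l ^ j) + l := by ring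
    have e4 : l * (2 * (N % l ^ j)) = 2 * (l * (N % l ^ j)) := by ring
    rw [e1]
    omega

theorem lt_mm (q : ℕ) : q < mm q := by
  unfold mm
  have h1 : q < 3 * q + 4 := by omega
  have h2 : 0 < (20 * q + 27) * (240 * q + 298) := by positivity
  calc q < 3 * q + 4 := h1
    _ ≤ (3 * q + 4) * ((20 * q + 27) * (240 * q + 298)) := Nat.le_mul_of_pos_right _ h2
    _ = (3 * q + 4) * (20 * q + 27) * (240 * q + 298) := by ring

/-- **Good values give divisibilities.** -/
theorem good_dvd (q Y E W x a : ℕ) (hY : 650 ≤ Y) (hYq : 2 * q + 8 ≤ Y)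
    (hE : E0 3 q (mm q) ≤ E) (hW : W = Y.factorial ^ E)
    (ha : a + (q + 2) = W * (x + 1))
    (hPB : ∀ l : ℕ, l.Prime → Y < l → ∀ R ∈ roots, ¬ PB R l (120 * (a : ℤ) + 83))
    (hsq : ∀ l : ℕ, l.Prime → Y < l → ∀ R ∈ roots, ¬ (l : ℤ) ^ 2 ∣ (120 * (a : ℤ) + 83) - R.ρ)
    (ham : mm q ≤ na a) :
    (na a).factorial * (na a + q).factorial ∣ (2 * na a - 6).factorial := by
  have h6 : 2 * na a - 6 = 2 * na a - 2 * 3 := by norm_num
  rw [h6]
  refine core 3 q (mm q) Y E (na a) (lt_mm q) (by omega) hE ham ?_ ?_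
  · intro l hl hlY
    refine dvd_trans ?_ (dvd_na_mm q a)
    rw [ha, hW]
    apply Dvd.dvd.mul_right
    exact pow_dvd_pow_of_dvd ((Nat.Prime.dvd_factorial hl).mpr hlY) E
  · intro l hl hYl hlt
    exact good_large q a l hl (by omega) (by omega) (hPB l hl hYl) (hsq l hl hYl) hlt

theorem sq_sum (Y W : ℕ) (T : ℤ) (hY : 100000 ≤ Y) (hT : T % 120 = 83) (hT0 : 0 ≤ T)
    (hTW : T ≤ 120 * W) (hW : 0 < W) (hYW : ∀ l : ℕ, l.Prime → Y < l → ¬ l ∣ W) (R : Root)
    (hR : R ∈ roots) (Z : ℕ) (hZ : 6000000000000 * W ≤ Z) (P : Finset ℕ)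
    (hP : ∀ l ∈ P, l.Prime ∧ Y < l) :
    ∑ l ∈ P, (((range Z).filter (fun x : ℕ => (l : ℤ) ^ 2 ∣ 120 * W * x + T - R.ρ)).card : ℝ) ≤
      3 / 100000 * (Z : ℝ) := by
  obtain ⟨-, -, -, -, -, hρ0, hρ⟩ := root_bd R hR
  rw [← Finset.sum_filter_add_sum_filter_not P (fun l => l ^ 2 ≤ 600 * W * Z)]
  have hzero : ∑ l ∈ P with ¬ l ^ 2 ≤ 600 * W * Z,
      (((range Z).filter (fun x : ℕ => (l : ℤ) ^ 2 ∣ 120 * W * x + T - R.ρ)).card : ℝ) = 0 := by
    apply Finset.sum_eq_zero
    intro l hl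
    rw [mem_filter] at hl
    obtain ⟨hlP, hl2⟩ := hl
    have : (range Z).filter (fun x : ℕ => (l : ℤ) ^ 2 ∣ 120 * W * x + T - R.ρ) = ∅ := by
      rw [Finset.filter_eq_empty_iff]
      intro x hx hd
      rw [mem_range] at hx
      have e0 : 0 ≤ 120 * (W : ℤ) * x := by positivity
      have e1 := Int.le_of_dvd (by omega) hd
      apply hl2
      have e2 : (x : ℤ) + 1 ≤ Z := by exact_mod_cast hx
      have e3 : 120 * (W : ℤ) * ((x : ℤ) + 1) ≤ 120 * W * Z :=
        mul_le_mul_of_nonneg_left e2 (by positivity)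
      have e5 : (1 : ℤ) ≤ (W : ℤ) * Z := by
        have : 1 ≤ W * Z := Nat.mul_pos hW (by omega)
        exact_mod_cast this
      have e4 : (l : ℤ) ^ 2 ≤ 600 * W * Z := by nlinarith
      exact_mod_cast e4
    rw [this, card_empty, Nat.cast_zero]
  rw [hzero, add_zero]
  set S := P.filter (fun l => l ^ 2 ≤ 600 * W * Z) with hS
  set V := Nat.sqrt (600 * W * Z) with hV
  have hSV : S ⊆ Ioo Y (V + 1) := by
    intro l hl
    rw [hS, mem_filter] at hl
    rw [mem_Ioo]
    refine ⟨(hP l hl.1).2, ?_⟩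
    have := Nat.le_sqrt'.mpr hl.2
    omega
  have hVZ : 100000 * V ≤ Z := by
    have h1 : V * V ≤ 600 * W * Z := Nat.sqrt_le _
    by_contra hcon
    push Not at hcon
    have h2 : Z * Z < (100000 * V) * (100000 * V) := Nat.mul_self_lt_mul_self hcon
    have h3 : (6000000000000 * W) * Z ≤ Z * Z := Nat.mul_le_mul_right _ hZ
    nlinarith
  have hcnt : ∀ l ∈ S,
      (((range Z).filter (fun x : ℕ => (l : ℤ) ^ 2 ∣ 120 * W * x + T - R.ρ)).card : ℝ) ≤
        (Z : ℝ) * ((l : ℝ) ^ 2)⁻¹ + 1 := by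
    intro l hl
    rw [hS, mem_filter] at hl
    obtain ⟨hlp, hYl⟩ := hP l hl.1
    have hcop := coprime_W W l hlp (hYW l hlp hYl) (by omega)
    have hcop2 : IsCoprime ((l ^ 2 : ℕ) : ℤ) (120 * (W : ℤ)) := by
      push_cast
      exact hcop.pow_left
    have h4 : ((range Z).filter (fun x : ℕ => (l : ℤ) ^ 2 ∣ 120 * W * x + T - R.ρ)).card ≤
        Z / l ^ 2 + 1 := by
      apply Rud.card_class Z (l ^ 2) _ (Finset.filter_subset _ _)
      intro x hx y hy
      rw [mem_filter] at hx hy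
      have h1 := hx.2
      have h2 := hy.2
      rw [add_sub_assoc] at h1 h2
      exact same_class W (l ^ 2) x y _ hcop2 (by push_cast; exact h1) (by push_cast; exact h2)
    have e1 : ((Z / l ^ 2 : ℕ) : ℝ) ≤ (Z : ℝ) / ((l ^ 2 : ℕ) : ℝ) := Nat.cast_div_le
    have h5 : (((range Z).filter (fun x : ℕ => (l : ℤ) ^ 2 ∣ 120 * W * x + T - R.ρ)).card : ℝ) ≤
        ((Z / l ^ 2 + 1 : ℕ) : ℝ) := by exact_mod_cast h4
    push_cast at e1 h5
    rw [div_eq_mul_inv] at e1
    linarith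
  refine (Finset.sum_le_sum hcnt).trans ?_
  rw [Finset.sum_add_distrib, ← Finset.mul_sum, Finset.sum_const, nsmul_eq_mul, mul_one]
  have h1 : ∑ l ∈ S, ((l : ℝ) ^ 2)⁻¹ ≤ 2 / ((Y : ℝ) + 1) := by
    refine le_trans (Finset.sum_le_sum_of_subset_of_nonneg hSV ?_) (sum_Ioo_inv_sq_le Y (V + 1))
    intro i _ _
    positivity
  have h2 : 2 / ((Y : ℝ) + 1) ≤ 2 / 100000 := by
    apply div_le_div_of_nonneg_left (by norm_num) (by norm_num)
    have : (100000 : ℝ) ≤ Y := by exact_mod_cast hY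
    linarith
  have h3 : (S.card : ℝ) ≤ 1 / 100000 * Z := by
    have e1 : S.card ≤ V := by
      refine (Finset.card_le_card hSV).trans ?_
      rw [Nat.card_Ioo]
      omega
    have e2 : (S.card : ℝ) ≤ V := by exact_mod_cast e1
    have e3 : (100000 : ℝ) * V ≤ Z := by exact_mod_cast hVZ
    linarith
  have hZ0 : (0 : ℝ) ≤ Z := Nat.cast_nonneg Z
  nlinarith [mul_le_mul_of_nonneg_left (h1.trans h2) hZ0]

/-- The divisibility for `n`. -/
def Div (q n : ℕ) : Prop := n.factorial * (n + q).factorial ∣ (2 * n - 6).factorial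

instance (q n : ℕ) : Decidable (Div q n) := by unfold Div; infer_instance

/-- The parameter `a` at `x`. -/
def aa (q W x : ℕ) : ℕ := W * (x + 1) - (q + 2)

theorem le_na (a : ℕ) : a ≤ na a := by
  unfold na
  have h2 : 0 < (20 * a + 13) * (240 * a + 182) := by positivity
  calc a ≤ 3 * a + 2 := by omega
    _ ≤ (3 * a + 2) * ((20 * a + 13) * (240 * a + 182)) := Nat.le_mul_of_pos_right _ h2
    _ = (3 * a + 2) * (20 * a + 13) * (240 * a + 182) := by ring

/-- The union bound (the hypothesis of the final count). -/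
def Union6 : Prop := ∃ A l0 : ℕ, 0 < A ∧ ∀ (Y W : ℕ) (T : ℤ), T % 120 = 83 → l0 ≤ Y →
    1000 ≤ Y → 0 ≤ T → T ≤ 120 * W → 0 < W → (∀ l : ℕ, l.Prime → Y < l → ¬ l ∣ W) →
    ∃ B : ℝ, ∃ Z0 : ℕ, ∀ Z' : ℕ, Z0 ≤ Z' → B ≤ log (Z' : ℝ) → ∀ P : Finset ℕ,
    (∀ l ∈ P, l.Prime ∧ Y < l) →
    (roots.map (fun R => ∑ l ∈ P,
      (((range (A * Z')).filter (fun x : ℕ => PB R l (120 * W * x + T))).card : ℝ))).sum ≤
      99 / 100 * ((A * Z' : ℕ) : ℝ)

theorem card_list (s : Finset ℕ) (L : List Root) (p : Root → ℕ → Prop)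
    [∀ R, DecidablePred (p R)] (T : Finset ℕ) (hT : T ⊆ s) (h : ∀ x ∈ T, ∃ R ∈ L, p R x) :
    (T.card : ℝ) ≤ (L.map (fun R => ((s.filter (p R)).card : ℝ))).sum := by
  induction L generalizing T with
  | nil =>
    have : T = ∅ := by
      rw [Finset.eq_empty_iff_forall_notMem]
      intro x hx
      obtain ⟨R, hR, -⟩ := h x hx
      exact absurd hR List.not_mem_nil
    simp [this]
  | cons R L ih =>
    rw [List.map_cons, List.sum_cons]
    have h1 := ih (T.filter (fun x => ¬ p R x)) ((Finset.filter_subset _ _).trans hT) (by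
      intro x hx
      rw [mem_filter] at hx
      obtain ⟨R', hR', hp⟩ := h x hx.1
      rcases List.mem_cons.mp hR' with e | e
      · rw [e] at hp
        exact absurd hp hx.2
      · exact ⟨R', e, hp⟩)
    have h2 : (T.filter (p R)).card ≤ (s.filter (p R)).card :=
      Finset.card_le_card (Finset.filter_subset_filter _ hT)
    have h3 := Finset.card_filter_add_card_filter_not (s := T) (p R)
    have h4 : (T.card : ℝ) = ((T.filter (p R)).card : ℝ) + ((T.filter (fun x => ¬ p R x)).card : ℝ) := by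
      exact_mod_cast h3.symm
    have h5 : ((T.filter (p R)).card : ℝ) ≤ ((s.filter (p R)).card : ℝ) := by exact_mod_cast h2
    linarith

theorem many (hU : Union6) (q : ℕ) : ∃ W A : ℕ, q + 3 ≤ W ∧ 0 < A ∧
    ∃ (B : ℝ) (Z0 : ℕ), ∀ Z' : ℕ, Z0 ≤ Z' →
    B ≤ log (Z' : ℝ) → 1 / 200 * ((A * Z' : ℕ) : ℝ) ≤
      (((range (A * Z')).filter (fun x => Div q (na (aa q W x)))).card : ℝ) := by
  obtain ⟨A, l0, hA, hroot⟩ := hU
  set Y := max l0 (max 100000 (2 * q + 8)) with hY
  have hY1 : l0 ≤ Y := le_max_left _ _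
  have hY2 : 100000 ≤ Y := (le_max_left _ _).trans (le_max_right _ _)
  have hY3 : 2 * q + 8 ≤ Y := (le_max_right _ _).trans (le_max_right _ _)
  set E := E0 3 q (mm q) with hE
  set W := Y.factorial ^ E with hW
  have hWE : E < W := by
    have h1 : 2 ≤ Y.factorial := le_trans (by omega) (Nat.self_le_factorial Y)
    exact lt_of_lt_of_le Nat.lt_two_pow_self (Nat.pow_le_pow_left h1 E)
  have hEq : mm q + q + 8 ≤ E := by
    rw [hE]; unfold E0; nlinarith
  have hW0 : 0 < W := by omega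
  have hYW : ∀ l : ℕ, l.Prime → Y < l → ¬ l ∣ W := by
    intro l hl hYl hd
    have := hl.dvd_of_dvd_pow hd
    rw [Nat.Prime.dvd_factorial hl] at this
    omega
  set T : ℤ := 120 * ((W : ℤ) - (q + 2)) + 83 with hT
  have hTm : T % 120 = 83 := by omega
  have hT0 : 0 ≤ T := by
    have : (q : ℤ) + 2 ≤ W := by exact_mod_cast (by omega : q + 2 ≤ W)
    rw [hT]; linarith
  have hTW : T ≤ 120 * W := by
    have : (0 : ℤ) ≤ q := Int.natCast_nonneg q
    rw [hT]; linarith
  obtain ⟨B, Z0, hmain⟩ := hroot Y W T hTm hY1 (by omega) hT0 hTW hW0 hYW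
  refine ⟨W, A, by omega, hA, B, max Z0 (6000000000000 * W), ?_⟩
  intro Z' hZ' hB
  have hZ0 : Z0 ≤ Z' := (le_max_left _ _).trans hZ'
  have hZ1 : 6000000000000 * W ≤ Z' := (le_max_right _ _).trans hZ'
  set Z := A * Z' with hZ
  have hZZ : 6000000000000 * W ≤ Z := hZ1.trans (Nat.le_mul_of_pos_left _ hA)
  set P := (Ioc Y (600 * W * Z)).filter Nat.Prime with hP
  have hPm : ∀ l ∈ P, l.Prime ∧ Y < l := by
    intro l hl
    rw [hP, mem_filter, mem_Ioc] at hl
    exact ⟨hl.2, hl.1.1⟩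
  have hax : ∀ x, aa q W x + (q + 2) = W * (x + 1) := by
    intro x
    unfold aa
    have : W * 1 ≤ W * (x + 1) := Nat.mul_le_mul_left _ (by omega)
    omega
  have htx : ∀ x : ℕ, 120 * ((aa q W x : ℕ) : ℤ) + 83 = 120 * W * x + T := by
    intro x
    have h1 : ((aa q W x + (q + 2) : ℕ) : ℤ) = ((W * (x + 1) : ℕ) : ℤ) := by rw [hax]
    push_cast at h1
    rw [hT]
    linear_combination 120 * h1
  classical
  -- the bad values
  set p : Root → ℕ → Prop := fun R x => ∃ l ∈ P, PB R l (120 * W * x + T) ∨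
    (l : ℤ) ^ 2 ∣ 120 * W * x + T - R.ρ with hp
  have hbad : ∀ x ∈ (range Z).filter (fun x => ¬ Div q (na (aa q W x))),
      ∃ R ∈ roots, p R x := by
    intro x hx
    rw [mem_filter] at hx
    obtain ⟨hxZ, hx⟩ := hx
    by_contra hcon
    apply hx
    have hxr : x < Z := mem_range.mp hxZ
    have hbd : ∀ l : ℕ, l.Prime → Y < l → ∀ R ∈ roots, (l : ℤ) ∣ 120 * W * x + T - R.ρ → l ∈ P := by
      intro l hl hYl R hR hd
      obtain ⟨-, -, -, -, -, hρ0, hρ⟩ := root_bd R hR
      rw [hP, mem_filter, mem_Ioc]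
      refine ⟨⟨hYl, ?_⟩, hl⟩
      have e0 : 0 ≤ 120 * (W : ℤ) * x := by positivity
      have e1 := Int.le_of_dvd (by omega) hd
      have e2 : (x : ℤ) + 1 ≤ Z := by exact_mod_cast hxr
      have e3 : 120 * (W : ℤ) * ((x : ℤ) + 1) ≤ 120 * W * Z :=
        mul_le_mul_of_nonneg_left e2 (by positivity)
      have e5 : (1 : ℤ) ≤ (W : ℤ) * Z := by
        have : 1 ≤ W * Z := Nat.mul_pos hW0 (by omega)
        exact_mod_cast this
      have e4 : (l : ℤ) ≤ 600 * W * Z := by nlinarith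
      exact_mod_cast e4
    refine good_dvd q Y E W x (aa q W x) (by omega) hY3 le_rfl hW (hax x) ?_ ?_ ?_
    · intro l hl hYl R hR hPB
      rw [htx] at hPB
      exact hcon ⟨R, hR, l, hbd l hl hYl R hR hPB.1, Or.inl hPB⟩
    · intro l hl hYl R hR hd
      rw [htx] at hd
      exact hcon ⟨R, hR, l, hbd l hl hYl R hR (dvd_trans (dvd_pow_self _ two_ne_zero) hd),
        Or.inr hd⟩
    · have h1 := hax x
      have h2 : W * 1 ≤ W * (x + 1) := Nat.mul_le_mul_left _ (by omega)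
      have h3 : mm q ≤ aa q W x := by omega
      exact h3.trans (le_na _)
  have hcard : (((range Z).filter (fun x => ¬ Div q (na (aa q W x)))).card : ℝ) ≤
      199 / 200 * (Z : ℝ) := by
    have h1 : (((range Z).filter (fun x => ¬ Div q (na (aa q W x)))).card : ℝ) ≤
        (roots.map (fun R => (((range Z).filter (p R)).card : ℝ))).sum :=
      card_list _ _ _ _ (Finset.filter_subset _ _) hbad
    have h2 : (roots.map (fun R => (((range Z).filter (p R)).card : ℝ))).sum ≤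
        (roots.map (fun R => ∑ l ∈ P,
          (((range Z).filter (fun x : ℕ => PB R l (120 * W * x + T))).card : ℝ) +
          3 / 100000 * (Z : ℝ))).sum := by
      apply List.sum_le_sum
      intro R hR
      have h3 : (range Z).filter (p R) ⊆ P.biUnion (fun l =>
          ((range Z).filter (fun x : ℕ => PB R l (120 * W * x + T))) ∪
          ((range Z).filter (fun x : ℕ => (l : ℤ) ^ 2 ∣ 120 * W * x + T - R.ρ))) := by
        intro x hx
        rw [mem_filter] at hx
        obtain ⟨hxZ, l, hl, h⟩ := hx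
        rw [mem_biUnion]
        refine ⟨l, hl, ?_⟩
        rw [mem_union, mem_filter, mem_filter]
        rcases h with h | h
        · exact Or.inl ⟨hxZ, h⟩
        · exact Or.inr ⟨hxZ, h⟩
      have h4 : (((range Z).filter (p R)).card : ℝ) ≤ ∑ l ∈ P,
          ((((range Z).filter (fun x : ℕ => PB R l (120 * W * x + T))).card : ℝ) +
          (((range Z).filter (fun x : ℕ => (l : ℤ) ^ 2 ∣ 120 * W * x + T - R.ρ)).card : ℝ)) := by
        refine le_trans (Nat.cast_le.mpr ((Finset.card_le_card h3).trans Finset.card_biUnion_le)) ?_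
        rw [Nat.cast_sum]
        refine Finset.sum_le_sum fun l _ => ?_
        exact_mod_cast Finset.card_union_le _ _
      rw [Finset.sum_add_distrib] at h4
      have h5 := sq_sum Y W T hY2 hTm hT0 hTW hW0 hYW R hR Z hZZ P hPm
      linarith
    have h3 := hmain Z' hZ0 hB P hPm
    rw [← hZ] at h3
    rw [List.sum_map_add] at h2
    have h4 : (roots.map (fun _ => 3 / 100000 * (Z : ℝ))).sum = 27 / 100000 * (Z : ℝ) := by
      simp [roots]
      ring
    rw [h4] at h2
    have hZr : (0 : ℝ) ≤ Z := Nat.cast_nonneg Z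
    linarith
  have hsum : (((range Z).filter (fun x => Div q (na (aa q W x)))).card : ℝ) +
      (((range Z).filter (fun x => ¬ Div q (na (aa q W x)))).card : ℝ) = Z := by
    have := Finset.card_filter_add_card_filter_not (s := range Z) (fun x => Div q (na (aa q W x)))
    rw [card_range] at this
    exact_mod_cast this
  linarith

theorem na_strictMono : StrictMono na := by
  intro a b hab
  unfold na
  have h1 : 3 * a + 2 < 3 * b + 2 := by omega
  have h2 : 20 * a + 13 < 20 * b + 13 := by omega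
  have h3 : 240 * a + 182 < 240 * b + 182 := by omega
  exact Nat.mul_lt_mul_of_lt_of_lt (Nat.mul_lt_mul_of_lt_of_lt h1 h2) h3

theorem aa_strictMono (q W : ℕ) (hW : q + 3 ≤ W) : StrictMono (aa q W) := by
  intro x y hxy
  unfold aa
  have h1 : W * (x + 1 + 1) ≤ W * (y + 1) := Nat.mul_le_mul_left _ (by omega)
  have h2 : W * 1 ≤ W * (x + 1) := Nat.mul_le_mul_left _ (by omega)
  have h3 : W * (x + 1 + 1) = W * (x + 1) + W := by ring
  omega

theorem na_le (a : ℕ) (ha : 1 ≤ a) : na a ≤ (120 * a) ^ 3 := by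
  unfold na
  calc (3 * a + 2) * (20 * a + 13) * (240 * a + 182) ≤ (5 * a) * (33 * a) * (422 * a) := by
        apply Nat.mul_le_mul
        · apply Nat.mul_le_mul <;> omega
        · omega
    _ = 69630 * a ^ 3 := by ring
    _ ≤ 1728000 * a ^ 3 := Nat.mul_le_mul_right _ (by norm_num)
    _ = (120 * a) ^ 3 := by ring

/-- **The final count.** -/
theorem final6 (hU : Union6) (q : ℕ) : ∃ c : ℝ, 0 < c ∧ ∃ N0 : ℕ, ∀ N : ℕ, N0 ≤ N →
    c * (N : ℝ) ^ (1 / 3 : ℝ) ≤
      (((Finset.Icc 1 N).filter (fun n : ℕ => ∀ p ≤ 6, p ≤ 2 * n ∧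
        n.factorial * (n + q).factorial ∣ (2 * n - p).factorial)).card : ℝ) := by
  obtain ⟨W, A, hW, hA, B, Z0, h⟩ := many hU q
  have hW0 : 0 < W := by omega
  set D : ℕ := 120 * W * A with hD
  have hD0 : 0 < D := by positivity
  have hDr : (0 : ℝ) < D := by exact_mod_cast hD0
  have hAr : (0 : ℝ) < A := by exact_mod_cast hA
  set H : ℝ := max (max (Z0 : ℝ) (Real.exp B)) 1 with hH
  have hH1 : 1 ≤ H := le_max_right _ _
  refine ⟨A / (400 * D), by positivity, ⌈(2 * D * H) ^ 3⌉₊, ?_⟩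
  intro N hN
  set r : ℝ := (N : ℝ) ^ (1 / 3 : ℝ) with hr
  have hN0 : (0 : ℝ) ≤ N := Nat.cast_nonneg N
  have hr0 : 0 ≤ r := Real.rpow_nonneg hN0 _
  have hr3 : r ^ 3 = N := by
    rw [hr, ← Real.rpow_natCast, ← Real.rpow_mul hN0]
    norm_num
  have hNr : (2 * D * H) ^ 3 ≤ (N : ℝ) := (Nat.le_ceil _).trans (by exact_mod_cast hN)
  have hrH : 2 * D * H ≤ r := by
    rw [← hr3] at hNr
    exact le_of_pow_le_pow_left₀ (by norm_num) hr0 hNr
  set Z' : ℕ := ⌊r / D⌋₊ with hZ'
  have hZle : (Z' : ℝ) ≤ r / D := Nat.floor_le (by positivity)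
  have hrD : 2 * H ≤ r / D := by
    rw [le_div_iff₀ hDr]; linarith
  have hZge : r / (2 * D) ≤ Z' := by
    have h1 : r / D < Z' + 1 := Nat.lt_floor_add_one _
    have h2 : r / (2 * D) = r / D / 2 := by rw [mul_comm, div_div]
    rw [h2]
    linarith
  have hZH : H ≤ Z' := by
    have h2 : r / (2 * D) = r / D / 2 := by rw [mul_comm, div_div]
    rw [h2] at hZge
    linarith
  have hZ0 : Z0 ≤ Z' := by
    have : (Z0 : ℝ) ≤ Z' := ((le_max_left _ _).trans (le_max_left _ _)).trans hZH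
    exact_mod_cast this
  have hZB : B ≤ Real.log (Z' : ℝ) := by
    have h1 : Real.exp B ≤ Z' := ((le_max_right _ _).trans (le_max_left _ _)).trans hZH
    rw [Real.le_log_iff_exp_le (by linarith)]
    exact h1
  have hcount := h Z' hZ0 hZB
  have hinj : ((range (A * Z')).filter (fun x => Div q (na (aa q W x)))).card ≤
      ((Finset.Icc 1 N).filter (fun n : ℕ => ∀ p ≤ 6, p ≤ 2 * n ∧
        n.factorial * (n + q).factorial ∣ (2 * n - p).factorial)).card := by
    apply Finset.card_le_card_of_injOn (fun x => na (aa q W x))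
    · intro x hx
      rw [Finset.mem_coe, mem_filter, mem_range] at hx
      obtain ⟨hxZ, hdiv⟩ := hx
      have ha1 : 1 ≤ aa q W x := by
        unfold aa
        have h2 : W * 1 ≤ W * (x + 1) := Nat.mul_le_mul_left _ (by omega)
        omega
      have ha2 : aa q W x ≤ W * (A * Z') := by
        unfold aa
        have h2 : W * (x + 1) ≤ W * (A * Z') := Nat.mul_le_mul_left _ hxZ
        omega
      have hn1 : 26 * 182 ≤ na (aa q W x) := by
        unfold na
        apply Nat.mul_le_mul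
        · calc 26 = 2 * 13 := by norm_num
            _ ≤ _ := Nat.mul_le_mul (by omega) (by omega)
        · omega
      rw [Finset.mem_coe, mem_filter, Finset.mem_Icc]
      refine ⟨⟨by show 1 ≤ na (aa q W x); omega, ?_⟩, ?_⟩
      · have h1 : na (aa q W x) ≤ (120 * aa q W x) ^ 3 := na_le _ ha1
        have h2 : (120 * aa q W x) ^ 3 ≤ (D * Z') ^ 3 := by
          apply Nat.pow_le_pow_left
          calc 120 * aa q W x ≤ 120 * (W * (A * Z')) := Nat.mul_le_mul_left _ ha2
            _ = D * Z' := by rw [hD]; ring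
        have h3 : (((D * Z') ^ 3 : ℕ) : ℝ) ≤ N := by
          push_cast
          rw [← hr3]
          apply pow_le_pow_left₀ (by positivity)
          rw [le_div_iff₀ hDr] at hZle
          linarith
        have h4 : (D * Z') ^ 3 ≤ N := by exact_mod_cast h3
        exact (h1.trans h2).trans h4
      · intro p hp
        refine ⟨by show p ≤ 2 * na (aa q W x); omega, ?_⟩
        show (na (aa q W x)).factorial * (na (aa q W x) + q).factorial ∣
          (2 * na (aa q W x) - p).factorial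
        exact dvd_trans hdiv (Nat.factorial_dvd_factorial (by omega))
    · intro x _ y _ hxy
      exact (na_strictMono.comp (aa_strictMono q W hW)).injective hxy
  have h5 : (((range (A * Z')).filter (fun x => Div q (na (aa q W x)))).card : ℝ) ≤
      (((Finset.Icc 1 N).filter (fun n : ℕ => ∀ p ≤ 6, p ≤ 2 * n ∧
        n.factorial * (n + q).factorial ∣ (2 * n - p).factorial)).card : ℝ) := by
    exact_mod_cast hinj
  refine le_trans ?_ (hcount.trans h5)
  push_cast
  have h6 : (A : ℝ) / (400 * D) * r = 1 / 200 * (A * (r / (2 * D))) := by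
    field_simp
    ring
  rw [h6]
  have h7 : (A : ℝ) * (r / (2 * D)) ≤ A * Z' := mul_le_mul_of_nonneg_left hZge hAr.le
  linarith

end Pool.Agent.H34.Rud6
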